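import Pool.Agent.Helper3.PD.Final

namespace Pool.Agent.Results.MP_e50e6d_nt.PredecessorDensity

open Filter Topology

/-- There is one constant `c > 0` such that for every positive integer `a` not divisible by `3` the set of positive
integers whose orbit under the `3x+1` map contains `a` has a natural density, and this density is at least
`c / a`. -/
theorem result : ∃ c : ℝ, 0 < c ∧ ∀ a : ℕ, ¬ 3 ∣ a → ∃ d : ℝ, c / (a : ℝ) ≤ d ∧
    Tendsto (fun x : ℝ => (Nat.card {n : ℕ // 1 ≤ n ∧ (n : ℝ) < x ∧
      ∃ k : ℕ, (fun m : ℕ => if m % 2 = 0 then m / 2 else 3 * m + 1)^[k] n = a} : ℝ) / x) atTop (𝓝 d) :=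
  Pool.Agent.Helper3.PD.pred_dens Pool.Agent.Helper3.PD.fino

end Pool.Agent.Results.MP_e50e6d_nt.PredecessorDensity
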