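import Pool.Agent.Helper3.PD.Final

namespace Pool.Agent.Results.MP_e50e6d_nt.UniformLinear

/-- There is one constant `c > 0` such that for every positive integer `a` not divisible by `3` and every real
`x ≥ a`, at least `c x / a` of the integers `1 ≤ n ≤ x` have `a` in their orbit under the `3x+1` map. -/
theorem result : ∃ c : ℝ, 0 < c ∧ ∀ a : ℕ, ¬ 3 ∣ a → ∀ x : ℝ, (a : ℝ) ≤ x →
    c * x / (a : ℝ) ≤ (Nat.card {n : ℕ // 1 ≤ n ∧ (n : ℝ) ≤ x ∧
      ∃ k : ℕ, (fun m : ℕ => if m % 2 = 0 then m / 2 else 3 * m + 1)^[k] n = a} : ℝ) :=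
  Pool.Agent.Helper3.PD.pos_Co Pool.Agent.Helper3.PD.fino

end Pool.Agent.Results.MP_e50e6d_nt.UniformLinear
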